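import Pool.Agent.Helper13.PS.St

/-!
Module PH of project PS: counting preimages.
-/

set_option autoImplicit false

namespace Pool.Agent.Helper71.PS

open Finset Pool.Agent.Helper76.ND Pool.Agent.Helper13.PS

private theorem nt_le_P (hTr : StTr) (t j M : ℕ) : nt j t M ≤ P (t + 1) j M := by
  rw [hTr.1 j t M]
  unfold P
  apply Finset.sum_le_sum
  intro s _
  apply div_le_self (ns_nonneg _ _ _ _)
  exact one_le_pow₀ (by norm_num)

theorem hPH (hRl : StRl) (hTr : StTr) : StPH := by
  intro t j U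
  have h1 : ((Icc 1 (2 ^ t)).filter (fun N => hd (wd t N) = j ∧ S^[t] N ∈ U)).card ≤
      (U.sigma (fun M => (W t).filter (fun l => hd l = j ∧ 3 ^ j ∣ 2 ^ t * M + cc l))).card := by
    apply Finset.card_le_card_of_injOn (fun N => (⟨S^[t] N, wd t N⟩ : (_ : ℕ) × List Bool))
    · intro N hN
      have hN' := (Finset.mem_filter.1 (Finset.mem_coe.1 hN)).2
      apply Finset.mem_coe.2
      rw [Finset.mem_sigma]
      refine ⟨hN'.2, Finset.mem_filter.2 ⟨wd_mem t N, hN'.1, ?_⟩⟩
      have h := hRl.1 t N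
      rw [hN'.1] at h
      exact ⟨N, h.symm⟩
    · intro N hN N' hN' he
      have e1 : S^[t] N = S^[t] N' := congrArg Sigma.fst he
      have e2 : wd t N = wd t N' := by
        have := (Sigma.mk.injEq _ _ _ _ ▸ he : _ ∧ _)
        exact eq_of_heq this.2
      have h := hRl.1 t N
      have h' := hRl.1 t N'
      rw [e1, e2] at h
      rw [← h] at h'
      exact (Nat.eq_of_mul_eq_mul_left (by positivity) h').symm
  rw [Finset.card_sigma] at h1
  calc (((Icc 1 (2 ^ t)).filter (fun N => hd (wd t N) = j ∧ S^[t] N ∈ U)).card : ℝ)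
      ≤ ((∑ M ∈ U, ((W t).filter (fun l => hd l = j ∧ 3 ^ j ∣ 2 ^ t * M + cc l)).card : ℕ) : ℝ) := by
        exact_mod_cast h1
    _ = ∑ M ∈ U, 2 ^ t * nt j t M := by
        push_cast
        apply Finset.sum_congr rfl
        intro M _
        unfold nt
        field_simp
    _ ≤ ∑ M ∈ U, 2 ^ t * P (t + 1) j M := by
        apply Finset.sum_le_sum
        intro M _
        exact mul_le_mul_of_nonneg_left (nt_le_P hTr t j M) (by positivity)
    _ = 2 ^ t * ∑ M ∈ U, P (t + 1) j M := by rw [Finset.mul_sum]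

end Pool.Agent.Helper71.PS
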