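import Pool.Agent.Helper18.PS.St2

/-!
# Project PS, second theorem, module REC: the recursion for the counting function
-/

set_option autoImplicit false

namespace Pool.Agent.Helper71.PS

open Finset
open Nat (totient)
open Pool.Agent.Helper18.PS
open Pool.Agent.Helper98.LM (StSV)
open Pool.Agent.Helper15.AB (StMT)

private theorem log_bd (N : ℕ) (hN : 1 ≤ N) : (1 + Real.log N) ^ 3 ≤ 216 * Real.sqrt N := by
  have hN0 : (0 : ℝ) < N := by exact_mod_cast hN
  have hN1 : (1 : ℝ) ≤ N := by exact_mod_cast hN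
  obtain ⟨x, hx⟩ : ∃ x : ℝ, x = (N : ℝ) ^ (1 / 6 : ℝ) := ⟨_, rfl⟩
  have hx0 : 0 < x := by rw [hx]; positivity
  have h1 : Real.log x = 1 / 6 * Real.log N := by rw [hx, Real.log_rpow hN0]
  have h2 := Real.log_le_sub_one_of_pos hx0
  have h3 : x ^ 3 = Real.sqrt N := by
    rw [hx, ← Real.rpow_natCast, ← Real.rpow_mul hN0.le, Real.sqrt_eq_rpow]
    norm_num
  have h4 : 0 ≤ Real.log N := Real.log_nonneg hN1
  have h5 : 1 + Real.log N ≤ 6 * x := by linarith
  calc (1 + Real.log N) ^ 3 ≤ (6 * x) ^ 3 := pow_le_pow_left₀ (by linarith) h5 3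
    _ = 216 * x ^ 3 := by ring
    _ = 216 * Real.sqrt N := by rw [h3]

open Classical in
private theorem cardA (N : ℕ) (E : ℝ) :
    ((Icc 1 N).filter (fun n => PrY E n)).card ≤
      ∑ k ∈ (range (N + 1)).filter (fun k : ℕ => E ≤ 2 ^ (k + 1) ∧ 2 ^ k ≤ N),
        cU (N / 2 ^ k) * P2 (2 ^ (k + 1)) := by
  have hsub : (Icc 1 N).filter (fun n => PrY E n) ⊆
      ((range (N + 1)).filter (fun k : ℕ => E ≤ 2 ^ (k + 1) ∧ 2 ^ k ≤ N)).biUnion fun k =>
        (((Icc 1 (N / 2 ^ k)).filter UU) ×ˢ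
          ((Icc 1 (2 ^ (k + 1))).filter
            (fun p => p.Prime ∧ ∃ q : ℕ, q.Prime ∧ p + 1 = 2 * q))).image
          (fun x => x.1 * x.2) := by
    intro n hn
    rw [mem_filter, mem_Icc] at hn
    obtain ⟨⟨hn1, hnN⟩, m, p, q, hnm, hp, hq, hpq, hU, hE⟩ := hn
    have hm : 0 < m := by
      rcases Nat.eq_zero_or_pos m with h | h
      · rw [h, zero_mul] at hnm
        omega
      · exact h
    have hpN : p ≤ N / m := by
      rw [Nat.le_div_iff_mul_le hm, mul_comm, ← hnm]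
      exact hnN
    have h0 : N / m ≠ 0 := by
      have := hp.pos
      omega
    have h1 : 2 ^ Nat.log 2 (N / m) ≤ N / m := Nat.pow_log_le_self 2 h0
    have h2 : N / m < 2 ^ (Nat.log 2 (N / m) + 1) := Nat.lt_pow_succ_log_self (by norm_num) _
    obtain ⟨k, hk⟩ : ∃ k, k = Nat.log 2 (N / m) := ⟨_, rfl⟩
    rw [← hk] at h1 h2
    have h3 : 2 ^ k ≤ N := h1.trans (Nat.div_le_self _ _)
    have h4 : k < N + 1 := by
      have := Nat.lt_two_pow_self (n := k)
      omega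
    rw [mem_biUnion]
    refine ⟨k, ?_, ?_⟩
    · rw [mem_filter, mem_range]
      refine ⟨h4, ?_, h3⟩
      have : (p : ℝ) ≤ 2 ^ (k + 1) := by exact_mod_cast (hpN.trans h2.le)
      linarith
    · rw [mem_image]
      refine ⟨(m, p), ?_, hnm.symm⟩
      rw [mem_product, mem_filter, mem_filter, mem_Icc, mem_Icc]
      refine ⟨⟨⟨hm, ?_⟩, hU⟩, ⟨hp.one_lt.le, ?_⟩, hp, q, hq, hpq⟩
      · rw [Nat.le_div_iff_mul_le (by positivity)]
        calc m * 2 ^ k ≤ m * (N / m) := Nat.mul_le_mul_left _ h1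
          _ ≤ N := Nat.mul_div_le N m
      · exact hpN.trans h2.le
  calc _ ≤ _ := card_le_card hsub
    _ ≤ _ := card_biUnion_le
    _ ≤ _ := sum_le_sum fun k _ => by
        refine card_image_le.trans ?_
        rw [card_product]
        exact le_of_eq (by unfold cU P2; congr!)

private theorem P2_le {C' : ℝ} (hC' : 0 < C')
    (hP : ∀ N : ℕ, 1 ≤ N → (P2 N : ℝ) ≤ C' * N / (1 + Real.log N) ^ 2) (k : ℕ) :
    (P2 (2 ^ (k + 1)) : ℝ) ≤ 8 * C' * 2 ^ k / (1 + (k : ℝ)) ^ 2 := by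
  have h1 := hP (2 ^ (k + 1)) Nat.one_le_two_pow
  have h2 : Real.log (((2 ^ (k + 1) : ℕ) : ℝ)) = ((k : ℝ) + 1) * Real.log 2 := by
    push_cast
    rw [Real.log_pow]
    push_cast
    ring
  have hk : (0 : ℝ) ≤ k := Nat.cast_nonneg k
  have hl := Real.log_two_gt_d9
  have h3 : (1 + (k : ℝ)) / 2 ≤ 1 + Real.log (((2 ^ (k + 1) : ℕ) : ℝ)) := by
    rw [h2]
    nlinarith
  have h4 : ((1 + (k : ℝ)) / 2) ^ 2 ≤ (1 + Real.log (((2 ^ (k + 1) : ℕ) : ℝ))) ^ 2 :=
    pow_le_pow_left₀ (by positivity) h3 2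
  calc (P2 (2 ^ (k + 1)) : ℝ)
      ≤ C' * ((2 ^ (k + 1) : ℕ) : ℝ) / (1 + Real.log (((2 ^ (k + 1) : ℕ) : ℝ))) ^ 2 := h1
    _ ≤ C' * ((2 ^ (k + 1) : ℕ) : ℝ) / ((1 + (k : ℝ)) / 2) ^ 2 :=
        div_le_div_of_nonneg_left (by positivity) (by positivity) h4
    _ = 8 * C' * 2 ^ k / (1 + (k : ℝ)) ^ 2 := by
        push_cast
        field_simp
        ring

/-- Module REC. -/
theorem hREC (hF : StFIQ) (hT : StTOL) (hP : StPI2) : StREC := by
  classical
  obtain ⟨N₀, hF⟩ := hF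
  obtain ⟨C', hC', hP⟩ := hP
  have hD0 : 0 ≤ Real.log ((N₀ : ℝ) + 1) := Real.log_nonneg (by
    have : (0 : ℝ) ≤ N₀ := Nat.cast_nonneg _
    linarith)
  obtain ⟨D, hD⟩ : ∃ D, D = (1 + Real.log ((N₀ : ℝ) + 1)) ^ 3 := ⟨_, rfl⟩
  have hDp : 0 < D := by rw [hD]; positivity
  refine ⟨433 + 8 * C' + D, by positivity, fun N hN => ?_⟩
  have hN0 : (0 : ℝ) < N := by exact_mod_cast hN
  have hN1 : (1 : ℝ) ≤ N := by exact_mod_cast hN
  have hL : 0 ≤ Real.log N := Real.log_nonneg hN1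
  have hL3 : 0 < (1 + Real.log (N : ℝ)) ^ 3 := by positivity
  obtain ⟨R, hR⟩ : ∃ R : ℝ, R = ∑ k ∈ (range (N + 1)).filter
      (fun k : ℕ => Real.exp (Real.log N ^ (2 / 3 : ℝ)) ≤ 2 ^ (k + 1) ∧ 2 ^ k ≤ N),
      (cU (N / 2 ^ k) : ℝ) * 2 ^ k / (1 + (k : ℝ)) ^ 2 := ⟨_, rfl⟩
  have hR0 : 0 ≤ R := by rw [hR]; exact sum_nonneg fun k _ => by positivity
  have hX0 : 0 ≤ (N : ℝ) / (1 + Real.log N) ^ 3 := by positivity
  suffices h : (cU N : ℝ) ≤ (433 + 8 * C' + D) * (N / (1 + Real.log N) ^ 3) +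
      (433 + 8 * C' + D) * R by
    rw [hR] at h
    rw [← mul_div_assoc] at h
    convert h using 4
  by_cases hNN : N₀ ≤ N
  · have hsub : (Icc 1 N).filter UU ⊆ ((Icc 1 N).filter
        (fun n => PrY (Real.exp (Real.log N ^ (2 / 3 : ℝ))) n) ∪ (Icc 1 N).filter
        (fun n => Sol n ∧ ¬ PrY (Real.exp (Real.log N ^ (2 / 3 : ℝ))) n)) ∪
        (Icc 1 N).filter (fun m => Odd (sg m)) := by
      intro n hn
      rw [mem_filter] at hn
      rw [mem_union, mem_union, mem_filter, mem_filter, mem_filter]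
      rcases hn.2 with h | h
      · by_cases h' : PrY (Real.exp (Real.log N ^ (2 / 3 : ℝ))) n
        · exact Or.inl (Or.inl ⟨hn.1, h'⟩)
        · exact Or.inl (Or.inr ⟨hn.1, h, h'⟩)
      · exact Or.inr ⟨hn.1, h.1⟩
    have h1 : (cU N : ℝ) ≤ (((Icc 1 N).filter
        (fun n => PrY (Real.exp (Real.log N ^ (2 / 3 : ℝ))) n)).card : ℝ) +
        (((Icc 1 N).filter
        (fun n => Sol n ∧ ¬ PrY (Real.exp (Real.log N ^ (2 / 3 : ℝ))) n)).card : ℝ) +
        (((Icc 1 N).filter (fun m => Odd (sg m))).card : ℝ) := by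
      have h2 : cU N ≤ ((Icc 1 N).filter
        (fun n => PrY (Real.exp (Real.log N ^ (2 / 3 : ℝ))) n)).card +
        ((Icc 1 N).filter
        (fun n => Sol n ∧ ¬ PrY (Real.exp (Real.log N ^ (2 / 3 : ℝ))) n)).card +
        ((Icc 1 N).filter (fun m => Odd (sg m))).card := by
        have h3 := card_le_card hsub
        have h4 := card_union_le ((Icc 1 N).filter
          (fun n => PrY (Real.exp (Real.log N ^ (2 / 3 : ℝ))) n) ∪ (Icc 1 N).filter
          (fun n => Sol n ∧ ¬ PrY (Real.exp (Real.log N ^ (2 / 3 : ℝ))) n))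
          ((Icc 1 N).filter (fun m => Odd (sg m)))
        have h5 := card_union_le ((Icc 1 N).filter
          (fun n => PrY (Real.exp (Real.log N ^ (2 / 3 : ℝ))) n)) ((Icc 1 N).filter
          (fun n => Sol n ∧ ¬ PrY (Real.exp (Real.log N ^ (2 / 3 : ℝ))) n))
        have h6 : cU N = ((Icc 1 N).filter UU).card := by
          unfold cU
          congr!
        omega
      exact_mod_cast h2
    have hA : (((Icc 1 N).filter
        (fun n => PrY (Real.exp (Real.log N ^ (2 / 3 : ℝ))) n)).card : ℝ) ≤ 8 * C' * R := by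
      have h2 := cardA N (Real.exp (Real.log N ^ (2 / 3 : ℝ)))
      have h3 : (((Icc 1 N).filter
        (fun n => PrY (Real.exp (Real.log N ^ (2 / 3 : ℝ))) n)).card : ℝ) ≤
        ∑ k ∈ (range (N + 1)).filter
          (fun k : ℕ => Real.exp (Real.log N ^ (2 / 3 : ℝ)) ≤ 2 ^ (k + 1) ∧ 2 ^ k ≤ N),
        (cU (N / 2 ^ k) : ℝ) * (P2 (2 ^ (k + 1)) : ℝ) := by
        have : ((((Icc 1 N).filter
        (fun n => PrY (Real.exp (Real.log N ^ (2 / 3 : ℝ))) n)).card : ℕ) : ℝ) ≤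
          ((∑ k ∈ (range (N + 1)).filter
            (fun k : ℕ => Real.exp (Real.log N ^ (2 / 3 : ℝ)) ≤ 2 ^ (k + 1) ∧ 2 ^ k ≤ N),
            cU (N / 2 ^ k) * P2 (2 ^ (k + 1)) : ℕ) : ℝ) := by
          apply Nat.cast_le.2
          convert h2
        rw [Nat.cast_sum] at this
        simpa only [Nat.cast_mul] using this
      refine h3.trans ?_
      rw [hR, mul_sum]
      refine sum_le_sum fun k _ => ?_
      calc (cU (N / 2 ^ k) : ℝ) * (P2 (2 ^ (k + 1)) : ℝ)
          ≤ (cU (N / 2 ^ k) : ℝ) * (8 * C' * 2 ^ k / (1 + (k : ℝ)) ^ 2) :=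
            mul_le_mul_of_nonneg_left (P2_le hC' hP k) (Nat.cast_nonneg _)
        _ = _ := by ring
    have hB : (((Icc 1 N).filter
        (fun n => Sol n ∧ ¬ PrY (Real.exp (Real.log N ^ (2 / 3 : ℝ))) n)).card : ℝ) ≤
        N / (1 + Real.log N) ^ 3 := by
      have := hF N hNN
      convert this
    have hTT : (((Icc 1 N).filter (fun m => Odd (sg m))).card : ℝ) ≤
        432 * (N / (1 + Real.log N) ^ 3) := by
      have h2 : (((Icc 1 N).filter (fun m => Odd (sg m))).card : ℝ) ≤ 2 * Real.sqrt N := by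
        have := hT N
        convert this
      refine h2.trans ?_
      rw [← mul_div_assoc, le_div_iff₀ hL3]
      have h3 := log_bd N hN
      have h4 := Real.sq_sqrt hN0.le
      have h5 := Real.sqrt_nonneg (N : ℝ)
      calc 2 * Real.sqrt N * (1 + Real.log N) ^ 3 ≤ 2 * Real.sqrt N * (216 * Real.sqrt N) :=
            mul_le_mul_of_nonneg_left h3 (by positivity)
        _ = 432 * (Real.sqrt N) ^ 2 := by ring
        _ = 432 * N := by rw [h4]
    calc (cU N : ℝ) ≤ 8 * C' * R + N / (1 + Real.log N) ^ 3 +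
          432 * (N / (1 + Real.log N) ^ 3) := by linarith
      _ ≤ _ := by
        have e1 : (433 + 8 * C' + D) * (N / (1 + Real.log N) ^ 3) +
            (433 + 8 * C' + D) * R - (8 * C' * R + N / (1 + Real.log N) ^ 3 +
            432 * (N / (1 + Real.log N) ^ 3)) =
            (8 * C' + D) * (N / (1 + Real.log N) ^ 3) + (433 + D) * R := by ring
        have e2 : 0 ≤ (8 * C' + D) * (N / (1 + Real.log N) ^ 3) + (433 + D) * R := by positivity
        linarith
  · have h1 : (cU N : ℝ) ≤ N := by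
      have h2 : cU N ≤ N := by
        unfold cU
        refine (card_filter_le _ _).trans ?_
        rw [Nat.card_Icc]
        omega
      exact_mod_cast h2
    have h3 : Real.log N ≤ Real.log ((N₀ : ℝ) + 1) := by
      apply Real.log_le_log hN0
      have : (N : ℝ) ≤ N₀ := by
        have : N ≤ N₀ := by omega
        exact_mod_cast this
      linarith
    have h4 : (1 + Real.log N) ^ 3 ≤ D := by
      rw [hD]
      exact pow_le_pow_left₀ (by positivity) (by linarith) 3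
    have h5 : (N : ℝ) ≤ D * (N / (1 + Real.log N) ^ 3) := by
      rw [← mul_div_assoc, le_div_iff₀ hL3, mul_comm]
      exact mul_le_mul_of_nonneg_right h4 hN0.le
    have e2 : 0 ≤ (433 + 8 * C') * (N / (1 + Real.log N) ^ 3) +
      (433 + 8 * C' + D) * R := by positivity
    linarith

end Pool.Agent.Helper71.PS
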